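import Pool.Agent.W848.N2.Stm

set_option autoImplicit false

namespace Pool.Agent.W60.N2

open Pool.Agent.W848.N2

theorem t_REV : Pool.Agent.W848.N2.S_REV := by
  intro k hk d
  refine ⟨fun j => d (Fin.rev j), ?_, ?_⟩
  · exact Equiv.sum_comp Fin.revPerm (fun j => sg (d j))
  · intro V R f' hf'
    have hlt : ∀ i : Fin k, (k - i.val) % k < k := fun i => Nat.mod_lt _ hk
    refine ⟨fun i => f' ⟨(k - i.val) % k, hlt i⟩, ?_, ?_⟩
    · intro i j hij
      have hi := i.2
      have hj := j.2
      have ha : (k - j.val) % k = k - 1 - i.val := by
        by_cases h : i.val + 1 < k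
        · rw [Nat.mod_eq_of_lt h] at hij
          rw [hij, Nat.mod_eq_of_lt (by omega)]
          omega
        · have h2 : i.val + 1 = k := by omega
          rw [h2, Nat.mod_self] at hij
          rw [hij, Nat.sub_zero, Nat.mod_self]
          omega
      have hb : (k - i.val) % k = ((k - j.val) % k + 1) % k := by
        rw [ha]
        congr 1
        omega
      have hrev : Fin.rev (⟨(k - j.val) % k, hlt j⟩ : Fin k) = i := by
        apply Fin.ext
        rw [Fin.val_rev]
        simp only [ha]
        omega
      have h := hf' ⟨(k - j.val) % k, hlt j⟩ ⟨(k - i.val) % k, hlt i⟩ hb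
      simp only [hrev] at h
      exact h
    · intro y
      have hinv : Function.Involutive (fun i : Fin k => (⟨(k - i.val) % k, hlt i⟩ : Fin k)) := by
        intro i
        apply Fin.ext
        have hi := i.2
        show (k - (k - i.val) % k) % k = i.val
        by_cases h : i.val = 0
        · rw [h, Nat.sub_zero, Nat.mod_self, Nat.sub_zero, Nat.mod_self]
        · rw [Nat.mod_eq_of_lt (show k - i.val < k by omega)]
          rw [show k - (k - i.val) = i.val by omega, Nat.mod_eq_of_lt hi]
      exact Function.Bijective.sum_comp hinv.bijective (fun i => y (f' i))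

end Pool.Agent.W60.N2
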